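import Pool.Agent.helper80.EN.Spec

set_option autoImplicit false

namespace Pool.Agent.helper80.EN

open Subgroup

universe u

theorem HPR (hHPT : HPT_stmt.{u}) (hTRF : TRF_stmt.{u}) : HPR_stmt.{u} := by
  intro G _
  obtain ⟨t1, t2, t3, t4, t5, t6, t7⟩ := hTRF G
  have hle : ∀ N : Subgroup G, N.Normal → LocNilp N → N ≤ HP G := fun N h1 h2 =>
    le_sSup (show N ∈ {N : Subgroup G | N.Normal ∧ LocNilp N} from ⟨h1, h2⟩)
  have hbot : (⊥ : Subgroup G) ∈ {N : Subgroup G | N.Normal ∧ LocNilp N} :=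
    ⟨inferInstance, t5 ⊥ inferInstance⟩
  have hdir : DirectedOn (· ≤ ·) {N : Subgroup G | N.Normal ∧ LocNilp N} := by
    rintro M ⟨hM, hM'⟩ N ⟨hN, hN'⟩
    exact ⟨M ⊔ N, ⟨Subgroup.sup_normal M N, hHPT G M N hM hN hM' hN'⟩, le_sup_left, le_sup_right⟩
  have hmem : ∀ x, x ∈ HP G ↔ ∃ N : Subgroup G, (N.Normal ∧ LocNilp N) ∧ x ∈ N := by
    intro x
    exact Subgroup.mem_sSup_of_directedOn ⟨⊥, hbot⟩ hdir
  have hnorm : (HP G).Normal := by
    refine ⟨fun n hn g => ?_⟩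
    obtain ⟨N, ⟨hN, hN'⟩, hnN⟩ := (hmem n).1 hn
    exact (hmem _).2 ⟨N, ⟨hN, hN'⟩, hN.conj_mem n hnN g⟩
  have hloc : LocNilp (HP G) := by
    intro K hK hKH
    obtain ⟨S, hS⟩ := hK
    have hex : ∀ T : Finset G, (∀ x ∈ T, x ∈ HP G) →
        ∃ N : Subgroup G, (N.Normal ∧ LocNilp N) ∧ ∀ x ∈ T, x ∈ N := by
      classical
      intro T
      induction T using Finset.induction_on with
      | empty => intro _; exact ⟨⊥, hbot, by simp⟩
      | insert a T ha ih =>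
        intro h
        obtain ⟨N, hN, hN'⟩ := ih (fun x hx => h x (Finset.mem_insert_of_mem hx))
        obtain ⟨M, hM, hM'⟩ := (hmem a).1 (h a (Finset.mem_insert_self a T))
        obtain ⟨L, hL, hL1, hL2⟩ := hdir N hN M hM
        refine ⟨L, hL, fun x hx => ?_⟩
        rcases Finset.mem_insert.1 hx with rfl | hx
        · exact hL2 hM'
        · exact hL1 (hN' x hx)
    obtain ⟨N, hN, hN'⟩ := hex S (fun x hx => hKH (by rw [← hS]; exact Subgroup.subset_closure hx))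
    refine hN.2 K ⟨S, hS⟩ ?_
    rw [← hS, Subgroup.closure_le]
    exact hN'
  refine ⟨hnorm, hloc, hle, ?_⟩
  rw [Subgroup.characteristic_iff_map_le]
  intro φ
  exact hle _ (hnorm.map _ φ.surjective) (t2 G φ.toMonoidHom (HP G) hloc)

end Pool.Agent.helper80.EN
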